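import Pool.Graph.R_seed8.Results.MP_a7207a_co.Counterexample

/-!
# The `c*d*`-depth of matrices and matroids and direct sums (MP_a7207a_co)

Over every field, the `c*d*`-depth of a block diagonal matrix is the maximum of the depths of the
blocks, and the same holds for the column matroids.  (The matrix depth is defined by operations on
the rows of the matrix, so here one first shows that it depends only on the dependencies between
the columns.)  Consequently every rational matrix `B` whose column matroid has depth at most `4` is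
a block of a rational matrix for which the two depths are different, and there are such matrices
with `m` rows and `n` columns for all `m ≥ 6`, `n ≥ 19`.

The definitions of the depths are in `Pool/Graph/R_seed8/R880/CD/Basic.lean`.
-/

set_option autoImplicit false

namespace Pool.Agent.Results.MP_a7207a_co.DirectSums

open Pool.Agent.R880.CD

/-! ### The depth of a matrix depends only on the dependencies of its columns -/

section

variable {𝔽 : Type} [Field 𝔽]

theorem inf_ker_le {V : Type*} [AddCommGroup V] [Module 𝔽 V] {K K₁ K₂ : Submodule 𝔽 V}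
    {φ ψ : V →ₗ[𝔽] 𝔽} (h1 : K = K₁ ⊓ LinearMap.ker φ) (h2 : K = K₂ ⊓ LinearMap.ker ψ) {u : V}
    (hu1 : u ∈ K₁) (hu2 : u ∈ K₂) (hφ : φ u ≠ 0) : K₁ ≤ K₂ := by
  intro x hx
  have h3 : x - (φ x / φ u) • u ∈ K := by
    rw [h1]
    refine ⟨Submodule.sub_mem _ hx (Submodule.smul_mem _ _ hu1), ?_⟩
    rw [SetLike.mem_coe, LinearMap.mem_ker, map_sub, map_smul, smul_eq_mul,
      div_mul_cancel₀ _ hφ, sub_self]
  have h4 : x - (φ x / φ u) • u ∈ K₂ := by
    rw [h2] at h3
    exact h3.1
  have h5 := Submodule.add_mem _ h4 (Submodule.smul_mem _ (φ x / φ u) hu2)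
  rwa [sub_add_cancel] at h5

theorem step_congr {m n : ℕ} {A : Matrix (Fin m) ℕ 𝔽} {B : Matrix (Fin n) ℕ 𝔽} {X : Finset ℕ}
    (h : Ker A X = Ker B X) {m' : ℕ} {A' : Matrix (Fin m') ℕ 𝔽} (hs : MatrixStep A A')
    (hne : Ker A' X ≠ Ker A X) :
    ∃ (n' : ℕ) (B' : Matrix (Fin n') ℕ 𝔽), MatrixStep B B' ∧ Ker B' X = Ker A' X := by
  cases hs with
  | d A w => exact ⟨n + 1, appendRow B w, .d B w, by rw [Ker_appendRow, Ker_appendRow, h]⟩
  | c A v r hr =>
    have e := Ker_pivotColumn A v r X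
    obtain ⟨u, hu, huA⟩ : ∃ u ∈ Ker (pivotColumn A v r) X, u ∉ Ker A X := by
      by_contra hcon
      push Not at hcon
      exact hne (le_antisymm hcon (by rw [e]; exact inf_le_left))
    have huφ : rowF (A r) X u ≠ 0 := fun h0 => huA (by rw [e]; exact ⟨hu, h0⟩)
    have huB : u ∉ Ker B X := fun h' => huA (h ▸ h')
    obtain ⟨r', hr'⟩ : ∃ i, ∑ j ∈ X, B i j * u j ≠ 0 := by
      by_contra hcon
      push Not at hcon
      exact huB ⟨hu.1, hcon⟩
    cases n with
    | zero => exact r'.elim0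
    | succ k =>
      have huB' : u ∈ Ker (pivotColumn B (fun i => ∑ j ∈ X, B i j * u j) r') X := by
        refine ⟨hu.1, fun i => ?_⟩
        have : ∀ j, pivotColumn B (fun i => ∑ j ∈ X, B i j * u j) r' i j * u j =
            B (r'.succAbove i) j * u j -
              (∑ j ∈ X, B (r'.succAbove i) j * u j) / (∑ j ∈ X, B r' j * u j) *
                (B r' j * u j) := by
          intro j
          rw [pivotColumn]
          ring
        rw [Finset.sum_congr rfl fun j _ => this j, Finset.sum_sub_distrib, ← Finset.mul_sum,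
          div_mul_cancel₀ _ hr', sub_self]
      have e' := Ker_pivotColumn B (fun i => ∑ j ∈ X, B i j * u j) r' X
      refine ⟨k, _, .c B (fun i => ∑ j ∈ X, B i j * u j) r' hr', le_antisymm ?_ ?_⟩
      · exact inf_ker_le (h.trans e') e huB' hu hr'
      · exact inf_ker_le e (h.trans e') hu huB' huφ

/-- some step of `A`, restricted to the columns in `X`, leads to depth at most `k` -/
def Good (k : ℕ) {m : ℕ} (A : Matrix (Fin m) ℕ 𝔽) (X : Finset ℕ) : Prop :=
  ∃ (m' : ℕ) (A' : Matrix (Fin m') ℕ 𝔽), MatrixStep A A' ∧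
    colMatroid A' X ≠ colMatroid A X ∧ MatrixDepthLE k m' A' X

theorem depthLE_succ {k m : ℕ} {A : Matrix (Fin m) ℕ 𝔽} {E : Finset ℕ} :
    MatrixDepthLE (k + 1) m A E ↔
      ∀ X : Finset ℕ, IsComponent (colMatroid A E) X → X.card ≤ 1 ∨ Good k A X := Iff.rfl

theorem ker_sub {m n : ℕ} {A : Matrix (Fin m) ℕ 𝔽} {B : Matrix (Fin n) ℕ 𝔽} {E X : Finset ℕ}
    (hX : X ⊆ E) (h : Ker A E = Ker B E) : Ker A X = Ker B X := by
  ext x
  rw [mem_Ker_sub hX, mem_Ker_sub hX, h]

theorem depth_congr : ∀ (k : ℕ) {m n : ℕ} {A : Matrix (Fin m) ℕ 𝔽} {B : Matrix (Fin n) ℕ 𝔽}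
    {E : Finset ℕ}, Ker A E = Ker B E → MatrixDepthLE k m A E → MatrixDepthLE k n B E := by
  intro k
  induction k with
  | zero => intro m n A B E _ h; exact h
  | succ k ih =>
    intro m n A B E h hA X hX
    have hXE : X ⊆ E := by exact_mod_cast hX.1.1
    rw [← colMatroid_congr h] at hX
    rcases hA X hX with h1 | ⟨m', A', hs, hne, hd⟩
    · exact Or.inl h1
    · have hk := ker_sub hXE h
      obtain ⟨n', B', hs', e'⟩ := step_congr hk hs fun e => hne (colMatroid_congr e)
      refine Or.inr ⟨n', B', hs', ?_, ih e'.symm hd⟩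
      rw [colMatroid_congr e', ← colMatroid_congr hk]
      exact hne

theorem good_congr {k m n : ℕ} {A : Matrix (Fin m) ℕ 𝔽} {B : Matrix (Fin n) ℕ 𝔽} {X : Finset ℕ}
    (hk : Ker A X = Ker B X) (h : Good k A X) : Good k B X := by
  obtain ⟨m', A', hs, hne, hd⟩ := h
  obtain ⟨n', B', hs', e'⟩ := step_congr hk hs fun e => hne (colMatroid_congr e)
  refine ⟨n', B', hs', ?_, depth_congr k e'.symm hd⟩
  rw [colMatroid_congr e', ← colMatroid_congr hk]
  exact hne

end

/-! ### Components of a restriction to a separator -/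

theorem pairwise_sub {M : Matroid ℕ} {E : Set ℕ}
    (hc : ∀ C, M.IsCircuit C → (∃ c ∈ C, c ∈ E) → C ⊆ E) {Y : Set ℕ}
    (hY : PairwiseOnCircuit M Y) (h : ∃ e ∈ Y, e ∈ E) : Y ⊆ E := by
  obtain ⟨e, he, heE⟩ := h
  intro f hf
  by_cases hef : e = f
  · exact hef ▸ heE
  · obtain ⟨C, hC, h1, h2⟩ := hY.2 e he f hf hef
    exact hc C hC ⟨e, h1, heE⟩ h2

theorem pairwise_iff {M : Matroid ℕ} {E : Set ℕ} (hE : E ⊆ M.E)
    (hc : ∀ C, M.IsCircuit C → (∃ c ∈ C, c ∈ E) → C ⊆ E) {Y : Set ℕ} (hYE : Y ⊆ E) :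
    PairwiseOnCircuit M Y ↔ PairwiseOnCircuit (M.restrict E) Y := by
  constructor
  · rintro ⟨h1, h2⟩
    refine ⟨hYE, fun e he f hf hef => ?_⟩
    obtain ⟨C, hC, h3, h4⟩ := h2 e he f hf hef
    exact ⟨C, (Matroid.restrict_isCircuit_iff hE).2 ⟨hC, hc C hC ⟨e, h3, hYE he⟩⟩, h3, h4⟩
  · rintro ⟨h1, h2⟩
    refine ⟨hYE.trans hE, fun e he f hf hef => ?_⟩
    obtain ⟨C, hC, h3, h4⟩ := h2 e he f hf hef
    exact ⟨C, ((Matroid.restrict_isCircuit_iff hE).1 hC).1, h3, h4⟩

theorem comp_iff {M : Matroid ℕ} {E : Set ℕ} (hE : E ⊆ M.E)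
    (hc : ∀ C, M.IsCircuit C → (∃ c ∈ C, c ∈ E) → C ⊆ E) {X : Set ℕ} (hX : X.Nonempty)
    (hXE : X ⊆ E) : IsComponent M X ↔ IsComponent (M.restrict E) X := by
  constructor
  · rintro ⟨h1, h2⟩
    refine ⟨(pairwise_iff hE hc hXE).1 h1, fun Y hY hXY => ?_⟩
    have hYE : Y ⊆ E := hY.1
    exact h2 ((pairwise_iff hE hc hYE).2 hY) hXY
  · rintro ⟨h1, h2⟩
    refine ⟨(pairwise_iff hE hc hXE).2 h1, fun Y hY hXY => ?_⟩
    obtain ⟨x, hx⟩ := hX
    have hYE : Y ⊆ E := pairwise_sub hc hY ⟨x, hXY hx, hXE hx⟩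
    exact h2 ((pairwise_iff hE hc hYE).1 hY) hXY

/-! ### Direct sums -/

section

variable {𝔽 : Type} [Field 𝔽]

/-- The direct sum (block diagonal matrix) of the matrix `A` with the column labels `E` and the
matrix `B` with the column labels `F`. -/
def dsum {m m' : ℕ} (A : Matrix (Fin m) ℕ 𝔽) (E : Finset ℕ) (B : Matrix (Fin m') ℕ 𝔽)
    (F : Finset ℕ) : Matrix (Fin (m + m')) ℕ 𝔽 :=
  fun i j => Fin.addCases (motive := fun _ => 𝔽) (fun i => if j ∈ E then A i j else 0)
    (fun i => if j ∈ F then B i j else 0) i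

variable {m m' : ℕ} (A : Matrix (Fin m) ℕ 𝔽) (E : Finset ℕ) (B : Matrix (Fin m') ℕ 𝔽)
  (F : Finset ℕ)

theorem dsum_l (i : Fin m) (j : ℕ) :
    dsum A E B F (Fin.castAdd m' i) j = if j ∈ E then A i j else 0 := by simp [dsum]

theorem dsum_r (i : Fin m') (j : ℕ) :
    dsum A E B F (Fin.natAdd m i) j = if j ∈ F then B i j else 0 := by simp [dsum]

variable {A E B F}

theorem ker_left (hd : Disjoint E F) {X : Finset ℕ} (hX : X ⊆ E) :
    Ker (dsum A E B F) X = Ker A X := by
  ext x
  rw [mem_Ker, mem_Ker]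
  refine and_congr_right fun _ => ?_
  have h1 : ∀ i, ∑ j ∈ X, dsum A E B F (Fin.castAdd m' i) j * x j = ∑ j ∈ X, A i j * x j := by
    intro i
    refine Finset.sum_congr rfl fun j hj => ?_
    rw [dsum_l, if_pos (hX hj)]
  have h2 : ∀ i, ∑ j ∈ X, dsum A E B F (Fin.natAdd m i) j * x j = 0 := by
    intro i
    refine Finset.sum_eq_zero fun j hj => ?_
    rw [dsum_r, if_neg (Finset.disjoint_left.1 hd (hX hj)), zero_mul]
  constructor
  · intro h i
    rw [← h1]
    exact h _
  · intro h i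
    refine Fin.addCases (fun i => ?_) (fun i => ?_) i
    · rw [h1]; exact h i
    · exact h2 i

theorem ker_right (hd : Disjoint E F) {X : Finset ℕ} (hX : X ⊆ F) :
    Ker (dsum A E B F) X = Ker B X := by
  ext x
  rw [mem_Ker, mem_Ker]
  refine and_congr_right fun _ => ?_
  have h1 : ∀ i, ∑ j ∈ X, dsum A E B F (Fin.natAdd m i) j * x j = ∑ j ∈ X, B i j * x j := by
    intro i
    refine Finset.sum_congr rfl fun j hj => ?_
    rw [dsum_r, if_pos (hX hj)]
  have h2 : ∀ i, ∑ j ∈ X, dsum A E B F (Fin.castAdd m' i) j * x j = 0 := by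
    intro i
    refine Finset.sum_eq_zero fun j hj => ?_
    rw [dsum_l, if_neg (Finset.disjoint_right.1 hd (hX hj)), zero_mul]
  constructor
  · intro h i
    rw [← h1]
    exact h _
  · intro h i
    refine Fin.addCases (fun i => ?_) (fun i => ?_) i
    · exact h2 i
    · rw [h1]; exact h i

theorem ind_mem_ker (hd : Disjoint E F) {u : ℕ → 𝔽} (hu : u ∈ Ker (dsum A E B F) (E ∪ F)) :
    ind (E : Set ℕ) u ∈ Ker (dsum A E B F) (E ∪ F) := by
  refine ⟨fun j hj => ?_, fun i => ?_⟩
  · rw [ind_notMem]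
    intro h
    exact hj (Finset.mem_union_left _ (by exact_mod_cast h))
  · refine Fin.addCases (fun i => ?_) (fun i => ?_) i
    · rw [← hu.2 (Fin.castAdd m' i)]
      refine Finset.sum_congr rfl fun j _ => ?_
      by_cases hj : j ∈ E
      · rw [ind_mem (by exact_mod_cast hj)]
      · rw [dsum_l, if_neg hj, zero_mul, zero_mul]
    · refine Finset.sum_eq_zero fun j _ => ?_
      by_cases hj : j ∈ E
      · rw [dsum_r, if_neg (Finset.disjoint_left.1 hd hj), zero_mul]
      · rw [ind_notMem (by exact_mod_cast hj), mul_zero]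

theorem circuit_left (hd : Disjoint E F) {C : Set ℕ}
    (hC : (colMatroid (dsum A E B F) (E ∪ F)).IsCircuit C) (h : ∃ c ∈ C, c ∈ (E : Set ℕ)) :
    C ⊆ (E : Set ℕ) := by
  obtain ⟨u, hu, huC⟩ := exists_of_isCircuit hC
  obtain ⟨c, hcC, hcE⟩ := h
  have hne : ind (E : Set ℕ) u ≠ 0 := by
    intro h0
    have := congrFun h0 c
    rw [ind_mem hcE] at this
    exact (huC c).2 hcC this
  obtain ⟨C', hC', hs⟩ := exists_circuit (ind_mem_ker hd hu) hne
  have hE : C' ⊆ (E : Set ℕ) := by
    intro j hj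
    by_contra h'
    exact hs j hj (ind_notMem h')
  have hCC : C' ⊆ C := by
    intro j hj
    have := hs j hj
    rw [ind_mem (hE hj)] at this
    exact (huC j).1 this
  rw [← hC'.eq_of_subset_isCircuit hC hCC]
  exact hE

theorem circuit_right (hd : Disjoint E F) {C : Set ℕ}
    (hC : (colMatroid (dsum A E B F) (E ∪ F)).IsCircuit C) (h : ∃ c ∈ C, c ∈ (F : Set ℕ)) :
    C ⊆ (F : Set ℕ) := by
  by_contra hcon
  rw [Set.not_subset] at hcon
  obtain ⟨c, hcC, hcF⟩ := hcon
  have hcE : c ∈ (E : Set ℕ) := by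
    have := hC.subset_ground hcC
    rw [colMatroid_E, Finset.coe_union] at this
    exact this.resolve_right hcF
  have hCE := circuit_left hd hC ⟨c, hcC, hcE⟩
  obtain ⟨d, hdC, hdF⟩ := h
  exact Finset.disjoint_left.1 hd (by exact_mod_cast hCE hdC) (by exact_mod_cast hdF)

theorem restrict_left (hd : Disjoint E F) :
    (colMatroid (dsum A E B F) (E ∪ F)).restrict (E : Set ℕ) = colMatroid A E := by
  rw [colMatroid_restrict _ Finset.subset_union_left]
  exact colMatroid_congr (ker_left hd subset_rfl)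

theorem restrict_right (hd : Disjoint E F) :
    (colMatroid (dsum A E B F) (E ∪ F)).restrict (F : Set ℕ) = colMatroid B F := by
  rw [colMatroid_restrict _ Finset.subset_union_right]
  exact colMatroid_congr (ker_right hd subset_rfl)

theorem comp_left (hd : Disjoint E F) {X : Set ℕ} (hX : X.Nonempty) (hXE : X ⊆ (E : Set ℕ)) :
    IsComponent (colMatroid (dsum A E B F) (E ∪ F)) X ↔ IsComponent (colMatroid A E) X := by
  rw [comp_iff (E := (E : Set ℕ)) (by simp) (fun C hC h => circuit_left hd hC h) hX hXE,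
    restrict_left hd]

theorem comp_right (hd : Disjoint E F) {X : Set ℕ} (hX : X.Nonempty) (hXF : X ⊆ (F : Set ℕ)) :
    IsComponent (colMatroid (dsum A E B F) (E ∪ F)) X ↔ IsComponent (colMatroid B F) X := by
  rw [comp_iff (E := (F : Set ℕ)) (by simp) (fun C hC h => circuit_right hd hC h) hX hXF,
    restrict_right hd]

theorem comp_cases (hd : Disjoint E F) {X : Set ℕ} (hX : X.Nonempty)
    (h : IsComponent (colMatroid (dsum A E B F) (E ∪ F)) X) :
    (X ⊆ (E : Set ℕ) ∧ IsComponent (colMatroid A E) X) ∨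
      (X ⊆ (F : Set ℕ) ∧ IsComponent (colMatroid B F) X) := by
  obtain ⟨x, hx⟩ := hX
  have hm := h.1.1 hx
  rw [colMatroid_E, Finset.coe_union] at hm
  rcases hm with hm | hm
  · have hs := pairwise_sub (fun C hC h' => circuit_left hd hC h') h.1 ⟨x, hx, hm⟩
    exact Or.inl ⟨hs, (comp_left hd ⟨x, hx⟩ hs).1 h⟩
  · have hs := pairwise_sub (fun C hC h' => circuit_right hd hC h') h.1 ⟨x, hx, hm⟩
    exact Or.inr ⟨hs, (comp_right hd ⟨x, hx⟩ hs).1 h⟩

/-- direct sums of matrices -/
theorem matrix_iff (hd : Disjoint E F) (k : ℕ) :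
    MatrixDepthLE k (m + m') (dsum A E B F) (E ∪ F) ↔
      MatrixDepthLE k m A E ∧ MatrixDepthLE k m' B F := by
  cases k with
  | zero => simp [MatrixDepthLE]
  | succ k =>
    rw [depthLE_succ, depthLE_succ, depthLE_succ]
    constructor
    · intro h
      refine ⟨fun X hX => ?_, fun X hX => ?_⟩
      · by_cases hc : X.card ≤ 1
        · exact Or.inl hc
        · have hne : (X : Set ℕ).Nonempty := by
            rw [Finset.coe_nonempty, ← Finset.card_pos]; omega
          have hXE : X ⊆ E := by exact_mod_cast hX.1.1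
          exact Or.inr (good_congr (ker_left hd hXE)
            ((h X ((comp_left hd hne (by exact_mod_cast hXE)).2 hX)).resolve_left hc))
      · by_cases hc : X.card ≤ 1
        · exact Or.inl hc
        · have hne : (X : Set ℕ).Nonempty := by
            rw [Finset.coe_nonempty, ← Finset.card_pos]; omega
          have hXF : X ⊆ F := by exact_mod_cast hX.1.1
          exact Or.inr (good_congr (ker_right hd hXF)
            ((h X ((comp_right hd hne (by exact_mod_cast hXF)).2 hX)).resolve_left hc))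
    · rintro ⟨h1, h2⟩ X hX
      by_cases hc : X.card ≤ 1
      · exact Or.inl hc
      · have hne : (X : Set ℕ).Nonempty := by
          rw [Finset.coe_nonempty, ← Finset.card_pos]; omega
        rcases comp_cases hd hne hX with ⟨hs, h'⟩ | ⟨hs, h'⟩
        · exact Or.inr (good_congr (ker_left hd (by exact_mod_cast hs)).symm
            ((h1 X h').resolve_left hc))
        · exact Or.inr (good_congr (ker_right hd (by exact_mod_cast hs)).symm
            ((h2 X h').resolve_left hc))

theorem nonempty_of {X : Set ℕ} (h : ¬ X.encard ≤ 1) : X.Nonempty := by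
  rw [Set.nonempty_iff_ne_empty]
  rintro rfl
  simp at h

/-- direct sums of matroids -/
theorem matroid_iff (hd : Disjoint E F) (k : ℕ) :
    MatroidDepthLE k (colMatroid (dsum A E B F) (E ∪ F)) ↔
      MatroidDepthLE k (colMatroid A E) ∧ MatroidDepthLE k (colMatroid B F) := by
  cases k with
  | zero => simp [MatroidDepthLE]
  | succ k =>
    have rl : ∀ X : Set ℕ, X ⊆ (E : Set ℕ) →
        (colMatroid (dsum A E B F) (E ∪ F)).restrict X = (colMatroid A E).restrict X := by
      intro X hX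
      rw [← restrict_left (A := A) (B := B) hd, Matroid.restrict_restrict_eq _ hX]
    have rr : ∀ X : Set ℕ, X ⊆ (F : Set ℕ) →
        (colMatroid (dsum A E B F) (E ∪ F)).restrict X = (colMatroid B F).restrict X := by
      intro X hX
      rw [← restrict_right (A := A) (B := B) hd, Matroid.restrict_restrict_eq _ hX]
    constructor
    · intro h
      refine ⟨fun X hX => ?_, fun X hX => ?_⟩
      · by_cases hc : X.encard ≤ 1
        · exact Or.inl hc
        · have := (h X ((comp_left hd (nonempty_of hc) hX.1.1).2 hX)).resolve_left hc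
          rw [rl X hX.1.1] at this
          exact Or.inr this
      · by_cases hc : X.encard ≤ 1
        · exact Or.inl hc
        · have := (h X ((comp_right hd (nonempty_of hc) hX.1.1).2 hX)).resolve_left hc
          rw [rr X hX.1.1] at this
          exact Or.inr this
    · rintro ⟨h1, h2⟩ X hX
      by_cases hc : X.encard ≤ 1
      · exact Or.inl hc
      · rcases comp_cases hd (nonempty_of hc) hX with ⟨hs, h'⟩ | ⟨hs, h'⟩
        · rw [rl X hs]
          exact Or.inr ((h1 X h').resolve_left hc)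
        · rw [rr X hs]
          exact Or.inr ((h2 X h').resolve_left hc)

end

/-! ### Numbers -/

theorem sInf_eq {P : ℕ → Prop} [DecidablePred P] (h : ∃ k, P k) :
    sInf {d : ℕ∞ | ∃ k : ℕ, d = k ∧ P k} = (Nat.find h : ℕ∞) := by
  refine le_antisymm (sInf_le ⟨_, rfl, Nat.find_spec h⟩) (le_sInf ?_)
  rintro d ⟨k, rfl, hk⟩
  exact_mod_cast Nat.find_min' h hk

theorem sInf_top {P : ℕ → Prop} (h : ¬ ∃ k, P k) :
    sInf {d : ℕ∞ | ∃ k : ℕ, d = k ∧ P k} = ⊤ := by
  have : {d : ℕ∞ | ∃ k : ℕ, d = k ∧ P k} = ∅ := by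
    ext d
    simp only [Set.mem_ofPred_eq, Set.mem_empty_iff_false, iff_false]
    rintro ⟨k, -, hk⟩
    exact h ⟨k, hk⟩
  rw [this, sInf_empty]

theorem sInf_and {P Q : ℕ → Prop} (hP : ∀ k l, k ≤ l → P k → P l)
    (hQ : ∀ k l, k ≤ l → Q k → Q l) :
    sInf {d : ℕ∞ | ∃ k : ℕ, d = k ∧ (P k ∧ Q k)} =
      max (sInf {d : ℕ∞ | ∃ k : ℕ, d = k ∧ P k}) (sInf {d : ℕ∞ | ∃ k : ℕ, d = k ∧ Q k}) := by
  classical
  refine le_antisymm ?_ (max_le ?_ ?_)
  · by_cases h1 : ∃ k, P k
    · by_cases h2 : ∃ k, Q k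
      · rw [sInf_eq h1, sInf_eq h2]
        refine sInf_le ⟨max (Nat.find h1) (Nat.find h2), by rfl, ?_, ?_⟩
        · exact hP _ _ (le_max_left _ _) (Nat.find_spec h1)
        · exact hQ _ _ (le_max_right _ _) (Nat.find_spec h2)
      · rw [sInf_top h2]
        simp
    · rw [sInf_top h1]
      simp
  · exact sInf_le_sInf fun d ⟨k, h, h'⟩ => ⟨k, h, h'.1⟩
  · exact sInf_le_sInf fun d ⟨k, h, h'⟩ => ⟨k, h, h'.2⟩

theorem matroid_mono : ∀ (k : ℕ) (M : Matroid ℕ), MatroidDepthLE k M → MatroidDepthLE (k + 1) M := by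
  intro k
  induction k with
  | zero => intro M h; exact absurd h (by simp [MatroidDepthLE])
  | succ k ih =>
    intro M h X hX
    rcases h X hX with h1 | ⟨M', hs, hne, hd⟩
    · exact Or.inl h1
    · exact Or.inr ⟨M', hs, hne, ih _ hd⟩

theorem matroid_mono_le {k l : ℕ} {M : Matroid ℕ} (hkl : k ≤ l) (h : MatroidDepthLE k M) :
    MatroidDepthLE l M := by
  induction hkl with
  | refl => exact h
  | step _ ih => exact matroid_mono _ _ ih

theorem matrix_max {𝔽 : Type} [Field 𝔽] {m m' : ℕ} (A : Matrix (Fin m) ℕ 𝔽) {E : Finset ℕ}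
    (B : Matrix (Fin m') ℕ 𝔽) {F : Finset ℕ} (hd : Disjoint E F) :
    matrixDepth (dsum A E B F) (E ∪ F) = max (matrixDepth A E) (matrixDepth B F) := by
  simp only [matrixDepth, matrix_iff hd]
  exact sInf_and (fun k l h => Counterexample.matrix_mono_le h)
    (fun k l h => Counterexample.matrix_mono_le h)

theorem matroid_max {𝔽 : Type} [Field 𝔽] {m m' : ℕ} (A : Matrix (Fin m) ℕ 𝔽) {E : Finset ℕ}
    (B : Matrix (Fin m') ℕ 𝔽) {F : Finset ℕ} (hd : Disjoint E F) :
    matroidDepth (colMatroid (dsum A E B F) (E ∪ F)) =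
      max (matroidDepth (colMatroid A E)) (matroidDepth (colMatroid B F)) := by
  simp only [matroidDepth, matroid_iff hd]
  exact sInf_and (fun k l h => matroid_mono_le h) (fun k l h => matroid_mono_le h)

/-! ### Zero matrices -/

theorem zero_single {m : ℕ} {F : Finset ℕ} {X : Set ℕ}
    (hX : PairwiseOnCircuit (colMatroid (0 : Matrix (Fin m) ℕ ℚ) F) X) : X.Subsingleton := by
  intro e he f hf
  by_contra hef
  obtain ⟨C, hC, h1, h2⟩ := hX.2 e he f hf hef
  have heF : e ∈ F := by exact_mod_cast hX.1 he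
  have hss : ({e} : Set ℕ) ⊂ C :=
    ⟨by simpa using h1, fun h => hef (by simpa using (h h2 : f ∈ ({e} : Set ℕ)).symm)⟩
  have hi := hC.ssubset_indep hss
  rw [indep_iff] at hi
  have := hi.2 (Pi.single e 1) ⟨fun j hj => by
    rw [Pi.single_eq_of_ne]; rintro rfl; exact hj heF, fun i => by simp⟩ fun j hj => by
    rw [Pi.single_eq_of_ne]; rintro rfl; exact hj rfl
  have := congrFun this e
  simp at this

theorem zero_matrix (m : ℕ) (F : Finset ℕ) : MatrixDepthLE 1 m (0 : Matrix (Fin m) ℕ ℚ) F := by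
  intro X hX
  left
  rw [Finset.card_le_one]
  intro a ha b hb
  exact zero_single hX.1 (by exact_mod_cast ha) (by exact_mod_cast hb)

theorem zero_matroid (m : ℕ) (F : Finset ℕ) :
    MatroidDepthLE 1 (colMatroid (0 : Matrix (Fin m) ℕ ℚ) F) := by
  intro X hX
  left
  exact Set.encard_le_one_iff_subsingleton.2 (zero_single hX.1)

/-- **Main theorem.**
(1) Over every field the `c*d*`-depth of the direct sum of two matrices is the maximum of their
depths, and the same holds for the column matroids.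
(2) There is a rational `6 × 19` matrix `A` (with the column labels `S`) such that for every
rational matrix `B` whose column matroid has depth at most `4` (with column labels not in `S`) the
column matroid of the direct sum of `A` and `B` has depth at most `4`, while the direct sum has depth
at least `5`; its depth is `max 5 (depth of B)`.
(3) For all `m ≥ 6` and `n ≥ 19` there is a rational matrix with `m` rows and `n` columns of
depth `5` whose column matroid has depth at most `4`. -/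
theorem result :
    (∀ (𝔽 : Type) [Field 𝔽] (m m' : ℕ) (A : Matrix (Fin m) ℕ 𝔽) (E : Finset ℕ)
      (B : Matrix (Fin m') ℕ 𝔽) (F : Finset ℕ), Disjoint E F →
        matrixDepth (dsum A E B F) (E ∪ F) = max (matrixDepth A E) (matrixDepth B F) ∧
        matroidDepth (colMatroid (dsum A E B F) (E ∪ F)) =
          max (matroidDepth (colMatroid A E)) (matroidDepth (colMatroid B F))) ∧
    (∃ (A : Matrix (Fin 6) ℕ ℚ) (S : Finset ℕ), S.card = 19 ∧
      ∀ (m' : ℕ) (B : Matrix (Fin m') ℕ ℚ) (F : Finset ℕ), Disjoint S F →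
        matroidDepth (colMatroid B F) ≤ 4 →
          matroidDepth (colMatroid (dsum A S B F) (S ∪ F)) ≤ 4 ∧
          matrixDepth (dsum A S B F) (S ∪ F) = max 5 (matrixDepth B F)) ∧
    ∀ m n : ℕ, 6 ≤ m → 19 ≤ n → ∃ (A : Matrix (Fin m) ℕ ℚ) (E : Finset ℕ), E.card = n ∧
      matroidDepth (colMatroid A E) ≤ 4 ∧ matrixDepth A E = 5 := by
  have key : ∀ (m' : ℕ) (B : Matrix (Fin m') ℕ ℚ) (F : Finset ℕ), Disjoint S F →
        matroidDepth (colMatroid B F) ≤ 4 →
          matroidDepth (colMatroid (dsum A1 S B F) (S ∪ F)) ≤ 4 ∧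
          matrixDepth (dsum A1 S B F) (S ∪ F) = max 5 (matrixDepth B F) := by
    intro m' B F hd hB
    rw [matroid_max A1 B hd, matrix_max A1 B hd, Counterexample.matrixDepth_A1]
    exact ⟨max_le Counterexample.matroidDepth_A1 hB, rfl⟩
  refine ⟨fun 𝔽 _ m m' A E B F hd => ⟨matrix_max A B hd, matroid_max A B hd⟩,
    ⟨A1, S, by decide, key⟩, fun m n hm hn => ?_⟩
  obtain ⟨m', rfl⟩ := Nat.exists_eq_add_of_le hm
  obtain ⟨n', rfl⟩ := Nat.exists_eq_add_of_le hn
  have hd : Disjoint S ((Finset.range n').map (addRightEmbedding 100)) := by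
    rw [Finset.disjoint_left]
    intro j hj hj'
    rw [Finset.mem_map] at hj'
    obtain ⟨i, -, rfl⟩ := hj'
    rw [mem_S, mem_E1, mem_L1, mem_L2] at hj
    simp only [addRightEmbedding_apply] at hj
    omega
  have h1 : matroidDepth (colMatroid (0 : Matrix (Fin m') ℕ ℚ)
      ((Finset.range n').map (addRightEmbedding 100))) ≤ 1 := sInf_le ⟨1, rfl, zero_matroid _ _⟩
  have h2 : matrixDepth (0 : Matrix (Fin m') ℕ ℚ)
      ((Finset.range n').map (addRightEmbedding 100)) ≤ 1 := sInf_le ⟨1, rfl, zero_matrix _ _⟩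
  obtain ⟨h3, h4⟩ := key m' 0 _ hd (h1.trans (by norm_num))
  refine ⟨_, _, ?_, h3, h4.trans (max_eq_left (h2.trans (by norm_num)))⟩
  rw [Finset.card_union_of_disjoint hd, Finset.card_map, Finset.card_range]
  rfl

end Pool.Agent.Results.MP_a7207a_co.DirectSums
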